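import Pool.Agent.Helper76.ND.StE

/-!
# Module Cy of project ND: cylinders
-/

set_option autoImplicit false

noncomputable section

namespace Pool.Agent.Helper17.ND

open Pool.Agent.Helper76.ND Finset

theorem hCy (hRl : StRl) : StCy := by
  obtain ⟨r1, -, -⟩ := hRl
  intro t n w
  have hcard : ((Icc 1 n).filter (fun N => wd t N = w)).card ≤ (range (n / 2 ^ t + 1)).card := by
    apply Finset.card_le_card_of_injOn (fun N => N / 2 ^ t)
    · intro N hN
      rw [mem_coe, mem_filter, mem_Icc] at hN
      rw [mem_coe, mem_range]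
      have := Nat.div_le_div_right (c := 2 ^ t) hN.1.2
      show N / 2 ^ t < n / 2 ^ t + 1
      omega
    · intro N hN N' hN' he
      rw [mem_coe, mem_filter, mem_Icc] at hN hN'
      have e1 := r1 t N
      have e2 := r1 t N'
      rw [hN.2] at e1
      rw [hN'.2] at e2
      have hmod : 3 ^ hd w * N ≡ 3 ^ hd w * N' [MOD 2 ^ t] := by
        rw [e1, e2]
        have a1 : 2 ^ t * S^[t] N + cc w ≡ cc w [MOD 2 ^ t] := by
          unfold Nat.ModEq
          rw [Nat.mul_add_mod]
        have a2 : 2 ^ t * S^[t] N' + cc w ≡ cc w [MOD 2 ^ t] := by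
          unfold Nat.ModEq
          rw [Nat.mul_add_mod]
        exact a1.trans a2.symm
      have hc : Nat.gcd (2 ^ t) (3 ^ hd w) = 1 :=
        Nat.Coprime.pow_left t (Nat.Coprime.pow_right _ (by norm_num))
      have h3 : N ≡ N' [MOD 2 ^ t] := Nat.ModEq.cancel_left_of_coprime hc hmod
      have h4 : N / 2 ^ t = N' / 2 ^ t := he
      have h5 : N % 2 ^ t = N' % 2 ^ t := h3
      rw [← Nat.div_add_mod N (2 ^ t), ← Nat.div_add_mod N' (2 ^ t), h4, h5]
  rw [card_range] at hcard
  exact hcard

end Pool.Agent.Helper17.ND
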