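import Pool.Agent.Helper76.ND.StE

/-!
# Module Bw of project ND: the sum over `N` as a sum over pairs
-/

set_option autoImplicit false

noncomputable section

namespace Pool.Agent.Helper17.ND

open Pool.Agent.Helper76.ND Finset

theorem hBw (hRl : StRl) : StBw := by
  obtain ⟨r1, r2, -⟩ := hRl
  intro t L L' F G hF hG
  have hR : ∑ M ∈ Icc 1 L', G M *
      ∑ l ∈ (W t).filter (fun l => 3 ^ hd l ∣ 2 ^ t * M + cc l),
        F ((2 ^ t * M + cc l) / 3 ^ hd l) =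
      ∑ x ∈ (Icc 1 L' ×ˢ W t).filter (fun x => 3 ^ hd x.2 ∣ 2 ^ t * x.1 + cc x.2),
        G x.1 * F ((2 ^ t * x.1 + cc x.2) / 3 ^ hd x.2) := by
    rw [Finset.sum_filter, Finset.sum_product]
    refine Finset.sum_congr rfl fun M _ => ?_
    rw [Finset.sum_filter, Finset.mul_sum]
    refine Finset.sum_congr rfl fun l _ => ?_
    split_ifs <;> simp
  rw [hR]
  refine Finset.sum_bij_ne_zero (fun N _ _ => (S^[t] N, wd t N)) ?_ ?_ ?_ ?_
  · intro N hN h0
    have hg : G (S^[t] N) ≠ 0 := right_ne_zero_of_mul h0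
    have h1 : ¬ (S^[t] N = 0 ∨ L' < S^[t] N) := fun h => hg (hG _ h)
    rw [mem_filter, mem_product, mem_Icc]
    refine ⟨⟨⟨by omega, by omega⟩, wd_mem t N⟩, ?_⟩
    show 3 ^ hd (wd t N) ∣ 2 ^ t * S^[t] N + cc (wd t N)
    rw [← r1]
    exact Dvd.intro _ rfl
  · intro N hN h0 N' hN' h0' he
    have e1 := r1 t N
    have e2 := r1 t N'
    rw [Prod.mk.injEq] at he
    rw [he.1, he.2, ← e2] at e1
    exact Nat.eq_of_mul_eq_mul_left (by positivity) e1
  · intro x hx h0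
    rw [mem_filter, mem_product, mem_Icc, mem_W] at hx
    obtain ⟨⟨h1, h2⟩, h3⟩ := hx
    rw [← h2] at h3 h0
    obtain ⟨h4, h5⟩ := r2 x.2 x.1 h3
    have hf : F ((2 ^ x.2.length * x.1 + cc x.2) / 3 ^ hd x.2) ≠ 0 := right_ne_zero_of_mul h0
    have hg : G x.1 ≠ 0 := left_ne_zero_of_mul h0
    have h6 : ¬ ((2 ^ x.2.length * x.1 + cc x.2) / 3 ^ hd x.2 = 0 ∨
      L < (2 ^ x.2.length * x.1 + cc x.2) / 3 ^ hd x.2) := fun h => hf (hF _ h)
    refine ⟨(2 ^ x.2.length * x.1 + cc x.2) / 3 ^ hd x.2, ?_, ?_, ?_⟩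
    · rw [mem_Icc]
      rw [not_or] at h6
      exact ⟨Nat.one_le_iff_ne_zero.mpr h6.1, not_lt.mp h6.2⟩
    · rw [← h2, h4]
      exact mul_ne_zero hf hg
    · rw [← h2, h4, h5]
  · intro N hN h0
    show F N * G (S^[t] N) =
      G (S^[t] N) * F ((2 ^ t * S^[t] N + cc (wd t N)) / 3 ^ hd (wd t N))
    rw [← r1, Nat.mul_div_cancel_left _ (by positivity), mul_comm]

end Pool.Agent.Helper17.ND
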