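import Pool.Agent.Helper76.ND.StD

/-!
# Module Cn of project ND: back to residues of `M`
-/

set_option autoImplicit false

noncomputable section

namespace Pool.Agent.Helper17.ND

open Pool.Agent.Helper76.ND Finset

theorem cn_ne (n : ℕ) : NeZero (3 ^ n) := ⟨by positivity⟩

theorem cn_sum (n : ℕ) (F : ZMod (3 ^ n) → ℝ) :
    ∑ M ∈ range (3 ^ n), F (-(M : ZMod (3 ^ n))) = ∑ r, F r := by
  have := cn_ne n
  rw [← Equiv.sum_comp (Equiv.neg (ZMod (3 ^ n))) F]
  refine Finset.sum_nbij' (fun M : ℕ => (M : ZMod (3 ^ n))) (fun r => r.val) ?_ ?_ ?_ ?_ ?_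
  · intro M _; exact Finset.mem_univ _
  · intro r _
    rw [mem_range]
    exact ZMod.val_lt r
  · intro M hM
    rw [mem_range] at hM
    exact ZMod.val_natCast_of_lt hM
  · intro r _
    exact ZMod.natCast_zmod_val r
  · intro M _
    rfl

/-- residues: `3 ^ n ∣ 2 ^ s M + c` -/
theorem cn_full (hYz : StYz) (n s M : ℕ) (l : List Bool) (hl : l.length = s) :
    3 ^ n ∣ 2 ^ s * M + cc l ↔ Yz n l = -(M : ZMod (3 ^ n)) := by
  have h2 := hYz.1 n
  have hu : (2 : ZMod (3 ^ n)) ^ s * hf n ^ s = 1 := by rw [← mul_pow, h2, one_pow]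
  rw [← CharP.cast_eq_zero_iff (ZMod (3 ^ n)) (3 ^ n)]
  unfold Yz
  rw [hl]
  push_cast
  constructor
  · intro h
    have h3 : (cc l : ZMod (3 ^ n)) = -(2 ^ s * M) := by
      rw [eq_neg_iff_add_eq_zero, add_comm]; exact h
    rw [h3]
    calc -(2 ^ s * (M : ZMod (3 ^ n))) * hf n ^ s = -(M * (2 ^ s * hf n ^ s)) := by ring
      _ = -(M : ZMod (3 ^ n)) := by rw [hu, mul_one]
  · intro h
    calc 2 ^ s * (M : ZMod (3 ^ n)) + cc l
        = 2 ^ s * (M : ZMod (3 ^ n)) + cc l * (2 ^ s * hf n ^ s) := by rw [hu, mul_one]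
      _ = 2 ^ s * (M : ZMod (3 ^ n)) + 2 ^ s * (cc l * hf n ^ s) := by ring
      _ = 0 := by rw [h]; ring

/-- residues modulo the smaller power -/
theorem cn_part (hYz : StYz) (n e s M : ℕ) (he : e ≤ n) (l : List Bool) (hl : l.length = s) :
    (∑ j ∈ range (3 ^ (n - e)), if Yz n l = -(M : ZMod (3 ^ n)) + 3 ^ e * (j : ZMod (3 ^ n))
      then (1 : ℝ) else 0) = if 3 ^ e ∣ 2 ^ s * M + cc l then 1 else 0 := by
  have := cn_ne n
  have h2 := hYz.1 n
  have hu : (2 : ZMod (3 ^ n)) ^ s * hf n ^ s = 1 := by rw [← mul_pow, h2, one_pow]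
  have hne : 3 ^ n = 3 ^ e * 3 ^ (n - e) := by rw [← pow_add]; congr 1; omega
  have hy : Yz n l + (M : ZMod (3 ^ n)) = hf n ^ s * ((2 ^ s * M + cc l : ℕ) : ZMod (3 ^ n)) := by
    unfold Yz
    rw [hl]
    push_cast
    calc (cc l : ZMod (3 ^ n)) * hf n ^ s + M
        = (cc l : ZMod (3 ^ n)) * hf n ^ s + M * (2 ^ s * hf n ^ s) := by rw [hu, mul_one]
      _ = hf n ^ s * (2 ^ s * M + cc l) := by ring
  have hz : (3 : ZMod (3 ^ n)) ^ e * 3 ^ (n - e) = 0 := by
    have : ((3 ^ n : ℕ) : ZMod (3 ^ n)) = 0 := CharP.cast_eq_zero _ _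
    rw [← this]
    rw [hne]
    push_cast
    rfl
  by_cases hd : 3 ^ e ∣ 2 ^ s * M + cc l
  · rw [if_pos hd]
    obtain ⟨w, hw⟩ := hd
    rw [hw] at hy
    -- the residue
    set x : ZMod (3 ^ n) := hf n ^ s * w with hx
    have hy2 : Yz n l + (M : ZMod (3 ^ n)) = 3 ^ e * x := by
      rw [hy, hx]; push_cast; ring
    have hN : 0 < 3 ^ (n - e) := by positivity
    have hxv : (x : ZMod (3 ^ n)) = ((3 ^ (n - e) * (x.val / 3 ^ (n - e)) +
        x.val % 3 ^ (n - e) : ℕ) : ZMod (3 ^ n)) := by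
      rw [Nat.div_add_mod, ZMod.natCast_zmod_val]
    have hy3 : Yz n l + (M : ZMod (3 ^ n)) =
        3 ^ e * ((x.val % 3 ^ (n - e) : ℕ) : ZMod (3 ^ n)) := by
      rw [hy2]
      conv_lhs => rw [hxv]
      push_cast
      rw [mul_add, ← mul_assoc, hz, zero_mul, zero_add]
    rw [Finset.sum_eq_single (x.val % 3 ^ (n - e))]
    · rw [if_pos]
      rw [← hy3]; ring
    · intro j hj hne'
      rw [mem_range] at hj
      rw [if_neg]
      intro h
      apply hne'
      have h4 : (3 : ZMod (3 ^ n)) ^ e * (j : ZMod (3 ^ n)) =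
          3 ^ e * ((x.val % 3 ^ (n - e) : ℕ) : ZMod (3 ^ n)) := by
        rw [← hy3, h]; ring
      have h5 : ((3 ^ e * j : ℕ) : ZMod (3 ^ n)) =
          ((3 ^ e * (x.val % 3 ^ (n - e)) : ℕ) : ZMod (3 ^ n)) := by
        push_cast
        exact h4
      have hmod := Nat.mod_lt x.val hN
      have l0 : ∀ i : ℕ, i < 3 ^ (n - e) → 3 ^ e * i < 3 ^ n := by
        intro i hi
        calc 3 ^ e * i < 3 ^ e * 3 ^ (n - e) := Nat.mul_lt_mul_of_pos_left hi (by positivity)
          _ = 3 ^ n := hne.symm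
      have l1 : 3 ^ e * j < 3 ^ n := l0 _ hj
      have l2 : 3 ^ e * (x.val % 3 ^ (n - e)) < 3 ^ n := l0 _ hmod
      have h6 := congrArg ZMod.val h5
      rw [ZMod.val_natCast_of_lt l1, ZMod.val_natCast_of_lt l2] at h6
      exact Nat.eq_of_mul_eq_mul_left (by positivity) h6
    · intro h
      exfalso
      apply h
      rw [mem_range]
      exact Nat.mod_lt _ hN
  · rw [if_neg hd]
    refine Finset.sum_eq_zero fun j _ => ?_
    rw [if_neg]
    intro h
    apply hd
    have h7 : hf n ^ s * ((2 ^ s * M + cc l : ℕ) : ZMod (3 ^ n)) = 3 ^ e * (j : ZMod (3 ^ n)) := by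
      rw [← hy, h]; ring
    have h8 : ((2 ^ s * M + cc l : ℕ) : ZMod (3 ^ n)) = ((3 ^ e * (2 ^ s * j) : ℕ) : ZMod (3 ^ n)) := by
      calc ((2 ^ s * M + cc l : ℕ) : ZMod (3 ^ n))
          = (2 ^ s * hf n ^ s) * ((2 ^ s * M + cc l : ℕ) : ZMod (3 ^ n)) := by rw [hu, one_mul]
        _ = 2 ^ s * (hf n ^ s * ((2 ^ s * M + cc l : ℕ) : ZMod (3 ^ n))) := by ring
        _ = 2 ^ s * (3 ^ e * (j : ZMod (3 ^ n))) := by rw [h7]
        _ = ((3 ^ e * (2 ^ s * j) : ℕ) : ZMod (3 ^ n)) := by push_cast; ring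
    have h9 := (ZMod.natCast_eq_natCast_iff _ _ _).1 h8
    have h10 : 2 ^ s * M + cc l ≡ 3 ^ e * (2 ^ s * j) [MOD 3 ^ e] :=
      h9.of_dvd (pow_dvd_pow 3 he)
    exact (h10.dvd_iff (dvd_refl _)).2 (Dvd.intro _ rfl)

theorem hCn (hYz : StYz) : StCn := by
  constructor
  · intro n e s he
    unfold O1
    rw [← cn_sum n (fun r => |sz n n s r - (∑ j ∈ range (3 ^ (n - e)),
      sz n n s (r + 3 ^ e * (j : ZMod (3 ^ n)))) / 3 ^ (n - e)|)]
    refine Finset.sum_congr rfl fun M _ => ?_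
    have h1 : ns n n s M = sz n n s (-(M : ZMod (3 ^ n))) := by
      unfold ns sz
      congr 2
      apply congrArg
      apply Finset.filter_congr
      intro l hl
      rw [mem_W] at hl
      rw [cn_full hYz n s M l hl]
    have h2 : ns e n s M = ∑ j ∈ range (3 ^ (n - e)),
        sz n n s (-(M : ZMod (3 ^ n)) + 3 ^ e * (j : ZMod (3 ^ n))) := by
      unfold ns sz
      rw [← Finset.sum_div]
      congr 1
      simp only [card_filter]
      push_cast
      rw [Finset.sum_comm]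
      refine Finset.sum_congr rfl fun l hl => ?_
      rw [mem_W] at hl
      by_cases hc : hd l = n ∧ te l = true
      · have h3 := cn_part hYz n e s M he l hl
        have h4 : (if hd l = n ∧ te l = true ∧ 3 ^ e ∣ 2 ^ s * M + cc l then (1 : ℝ) else 0) =
            if 3 ^ e ∣ 2 ^ s * M + cc l then 1 else 0 :=
          if_congr (by simp [hc]) rfl rfl
        rw [h4, ← h3]
        refine Finset.sum_congr rfl fun j _ => ?_
        exact if_congr (by simp [hc]) rfl rfl
      · rw [if_neg (by rintro ⟨h1, h2, -⟩; exact hc ⟨h1, h2⟩)]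
        symm
        refine Finset.sum_eq_zero fun j _ => ?_
        rw [if_neg (by rintro ⟨h1, h2, -⟩; exact hc ⟨h1, h2⟩)]
    rw [h1, h2]
  · intro n s
    have := cn_ne n
    have h0 : ∀ r : ZMod (3 ^ n), |sz n n s r| = sz n n s r := by
      intro r
      apply abs_of_nonneg
      unfold sz
      positivity
    rw [Finset.sum_congr rfl fun r _ => h0 r, ← card_hd_te]
    unfold sz
    rw [← Finset.sum_div]
    congr 1
    simp only [card_filter]
    push_cast
    rw [Finset.sum_comm]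
    refine Finset.sum_congr rfl fun l _ => ?_
    by_cases hc : hd l = n ∧ te l = true
    · rw [if_pos hc, Finset.sum_eq_single (Yz n l)]
      · rw [if_pos ⟨hc.1, hc.2, rfl⟩]
      · intro r _ hr
        rw [if_neg]
        rintro ⟨-, -, h⟩
        exact hr h.symm
      · intro h
        exact absurd (Finset.mem_univ _) h
    · rw [if_neg hc]
      refine Finset.sum_eq_zero fun r _ => ?_
      rw [if_neg (by rintro ⟨h1, h2, -⟩; exact hc ⟨h1, h2⟩)]

end Pool.Agent.Helper17.ND
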