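import Pool.Agent.Helper76.ND.StD

/-!
# Module De of project ND: decomposition of words
-/

set_option autoImplicit false

noncomputable section

namespace Pool.Agent.Helper17.ND

open Pool.Agent.Helper76.ND Finset

theorem de_pos {b : List Bool} (hb : b ≠ []) (ht : te b = true) : 1 ≤ hd b := by
  obtain ⟨b', x, rfl⟩ : ∃ b' x, b = b' ++ [x] :=
    ⟨b.dropLast, b.getLast hb, (List.dropLast_append_getLast hb).symm⟩
  rw [te_snoc] at ht
  rw [ht, hd_append]
  have : hd [true] = 1 := rfl
  omega

theorem hDe (hYz : StYz) : StDe := by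
  intro n t s r hts
  obtain ⟨s', rfl⟩ : ∃ s', s = t + s' := ⟨s - t, by omega⟩
  have hs' : 1 ≤ s' := by omega
  rw [Nat.add_sub_cancel_left]
  have hap := hYz.2.1
  -- left side
  have hL : sz n n (t + s') r = (∑ a ∈ W t, ∑ b ∈ W s',
      (if hd a + hd b = n ∧ te b = true ∧ Yz n a + 3 ^ hd a * hf n ^ t * Yz n b = r
        then (1 : ℝ) else 0)) / 2 ^ (t + s') := by
    unfold sz
    congr 1
    rw [card_filter, sum_W_append]
    push_cast
    refine Finset.sum_congr rfl fun a ha => Finset.sum_congr rfl fun b hb => ?_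
    rw [mem_W] at ha hb
    have hb0 : b ≠ [] := by
      rintro rfl
      simp at hb
      omega
    rw [te_append a b hb0, hap, ha, hd_append]
  have hR : ∀ k, Rn n (n - k) s' (ct n k t) (3 ^ k * hf n ^ t) r =
      (∑ a ∈ W t, ∑ b ∈ W s', (if (hd b = n - k ∧ te b = true) ∧ hd a = k ∧
        Yz n a = r - 3 ^ k * hf n ^ t * Yz n b then (1 : ℝ) else 0)) / 2 ^ (t + s') := by
    intro k
    unfold Rn ct
    rw [← Finset.sum_div, div_div, ← pow_add]
    congr 1
    rw [Finset.sum_filter, Finset.sum_comm (s := W t)]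
    refine Finset.sum_congr rfl fun b _ => ?_
    by_cases hb : hd b = n - k ∧ te b = true
    · rw [if_pos hb, card_filter]
      push_cast
      refine Finset.sum_congr rfl fun a _ => ?_
      exact if_congr (by simp [hb]) rfl rfl
    · rw [if_neg hb]
      symm
      refine Finset.sum_eq_zero fun a _ => ?_
      rw [if_neg]
      rintro ⟨h, -⟩
      exact hb h
  have hR2 : ∑ k ∈ range n, Rn n (n - k) s' (ct n k t) (3 ^ k * hf n ^ t) r =
      (∑ a ∈ W t, ∑ b ∈ W s', ∑ k ∈ range n, (if (hd b = n - k ∧ te b = true) ∧ hd a = k ∧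
        Yz n a = r - 3 ^ k * hf n ^ t * Yz n b then (1 : ℝ) else 0)) / 2 ^ (t + s') := by
    rw [Finset.sum_congr rfl fun k _ => hR k, ← Finset.sum_div]
    congr 1
    rw [Finset.sum_comm]
    refine Finset.sum_congr rfl fun a _ => ?_
    rw [Finset.sum_comm]
  rw [hL, hR2]
  congr 1
  refine Finset.sum_congr rfl fun a ha => ?_
  refine Finset.sum_congr rfl fun b hb => ?_
  rw [mem_W] at ha hb
  have hb0 : b ≠ [] := by
    rintro rfl
    simp at hb
    omega
  by_cases h : hd a + hd b = n ∧ te b = true ∧ Yz n a + 3 ^ hd a * hf n ^ t * Yz n b = r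
  · rw [if_pos h]
    obtain ⟨h1, h2, h3⟩ := h
    have hpos := de_pos hb0 h2
    rw [Finset.sum_eq_single (hd a)]
    · rw [if_pos]
      refine ⟨⟨by omega, h2⟩, rfl, ?_⟩
      rw [← h3]
      ring
    · intro k _ hk
      rw [if_neg]
      rintro ⟨-, h, -⟩
      exact hk h.symm
    · intro hk
      exfalso
      rw [mem_range] at hk
      omega
  · rw [if_neg h]
    symm
    refine Finset.sum_eq_zero fun k hk => ?_
    rw [if_neg]
    rintro ⟨⟨h1, h2⟩, h3, h4⟩
    rw [mem_range] at hk
    apply h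
    refine ⟨by omega, h2, ?_⟩
    rw [h4, h3]
    ring

end Pool.Agent.Helper17.ND
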