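import Pool.Agent.Helper76.ND.StC

/-!
# Module Lz of project ND: Lipschitz bound for `fb`
-/

set_option autoImplicit false

noncomputable section

namespace Pool.Agent.Helper17.ND

open Pool.Agent.Helper76.ND Finset

theorem lz_count (m : ℕ) :
    ∑ p ∈ Icc 1 m, ∑ _r ∈ Icc (p + 1) m, (1 : ℝ) = (m.choose 2 : ℝ) := by
  induction m with
  | zero => simp
  | succ m ih =>
    rw [Finset.sum_Icc_succ_top (by omega)]
    rw [Finset.Icc_eq_empty (show ¬ (m + 1 + 1 ≤ m + 1) by omega), Finset.sum_empty, add_zero]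
    have h : ∀ p ∈ Icc 1 m, ∑ _r ∈ Icc (p + 1) (m + 1), (1 : ℝ) =
        (∑ _r ∈ Icc (p + 1) m, (1 : ℝ)) + 1 := by
      intro p hp
      rw [mem_Icc] at hp
      rw [Finset.sum_Icc_succ_top (by omega)]
    rw [Finset.sum_congr rfl h, Finset.sum_add_distrib, ih, Finset.sum_const, Nat.card_Icc,
      Nat.choose_succ_succ' m 1, Nat.choose_one_right]
    push_cast
    simp
    ring

theorem lz_term (X Y : ℕ → ℝ) (η : ℝ) (p r : ℕ) (hp : ∃ m : ℤ, |X p - Y p - m| ≤ η)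
    (hr : ∃ m : ℤ, |X r - Y r - m| ≤ η) :
    ‖ev (X p + 3 * X r) - ev (Y p + 3 * Y r)‖ ≤ 8 * Real.pi * η * 1 := by
  obtain ⟨m, hm⟩ := hp
  obtain ⟨m', hm'⟩ := hr
  have e : ev (X p + 3 * X r) = ev (X p + 3 * X r + ((-(m + 3 * m') : ℤ) : ℝ)) :=
    (ev_add_int _ _).symm
  rw [e]
  refine (norm_ev_sub_le _ _).trans ?_
  have h : |X p + 3 * X r + ((-(m + 3 * m') : ℤ) : ℝ) - (Y p + 3 * Y r)| ≤ 4 * η := by
    push_cast
    rw [abs_le] at hm hm' ⊢
    constructor <;> linarith [hm.1, hm.2, hm'.1, hm'.2]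
  have hpi := Real.pi_pos
  nlinarith

theorem hLz (hPb : StPb) : StLz := by
  intro b X Y η hη hXY
  have hX := hPb.1 b X
  have hY := hPb.1 b Y
  unfold fb at hX hY ⊢
  have hd : ‖(∑ p ∈ Icc 1 (b - 1), ∑ r ∈ Icc (p + 1) (b - 1), ev (X p + 3 * X r)) -
      ∑ p ∈ Icc 1 (b - 1), ∑ r ∈ Icc (p + 1) (b - 1), ev (Y p + 3 * Y r)‖ ≤
      8 * Real.pi * η * ((b - 1).choose 2 : ℝ) := by
    rw [← lz_count, Finset.mul_sum, ← Finset.sum_sub_distrib]
    refine (norm_sum_le _ _).trans (Finset.sum_le_sum fun p hp => ?_)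
    rw [Finset.mul_sum, ← Finset.sum_sub_distrib]
    refine (norm_sum_le _ _).trans (Finset.sum_le_sum fun r hr => ?_)
    have hr' : r ∈ Icc 1 (b - 1) := by
      rw [mem_Icc] at hr ⊢
      omega
    exact lz_term X Y η p r (hXY p hp) (hXY r hr')
  generalize (∑ p ∈ Icc 1 (b - 1), ∑ r ∈ Icc (p + 1) (b - 1), ev (X p + 3 * X r)) = A at *
  generalize (∑ p ∈ Icc 1 (b - 1), ∑ r ∈ Icc (p + 1) (b - 1), ev (Y p + 3 * Y r)) = C at *
  have hpi := Real.pi_pos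
  rcases Nat.eq_zero_or_pos ((b - 1).choose 2) with h0 | h0
  · rw [h0]
    simp only [Nat.cast_zero, ne_eq, OfNat.ofNat_ne_zero, not_false_eq_true, zero_pow, div_zero,
      zero_add]
    positivity
  · have hN : (0 : ℝ) < ((b - 1).choose 2 : ℝ) := by exact_mod_cast h0
    generalize ((b - 1).choose 2 : ℝ) = N at *
    rw [div_le_one (by positivity)] at hX hY
    have hA : ‖A‖ ≤ N := by
      have := abs_le_of_sq_le_sq hX hN.le
      exact (le_abs_self _).trans this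
    have hC : ‖C‖ ≤ N := by
      have := abs_le_of_sq_le_sq hY hN.le
      exact (le_abs_self _).trans this
    have h1 : ‖A‖ - ‖C‖ ≤ 8 * Real.pi * η * N := (norm_sub_norm_le _ _).trans hd
    rw [← sub_le_iff_le_add', ← sub_div, div_le_iff₀ (by positivity)]
    have h2 : ‖A‖ ^ 2 - ‖C‖ ^ 2 ≤ (8 * Real.pi * η * N) * (2 * N) := by
      have h3 : ‖A‖ ^ 2 - ‖C‖ ^ 2 = (‖A‖ - ‖C‖) * (‖A‖ + ‖C‖) := by ring
      rw [h3]
      have h4 : 0 ≤ ‖A‖ + ‖C‖ := by positivity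
      calc (‖A‖ - ‖C‖) * (‖A‖ + ‖C‖) ≤ (8 * Real.pi * η * N) * (‖A‖ + ‖C‖) := by gcongr
        _ ≤ (8 * Real.pi * η * N) * (2 * N) := by
          apply mul_le_mul_of_nonneg_left (by linarith) (by positivity)
    calc ‖A‖ ^ 2 - ‖C‖ ^ 2 ≤ (8 * Real.pi * η * N) * (2 * N) := h2
      _ = 16 * Real.pi * η * N ^ 2 := by ring

end Pool.Agent.Helper17.ND
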