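import Pool.Agent.Helper76.ND.StD

/-!
# Module Ns of project ND: periods and masses of the laws
-/

set_option autoImplicit false

noncomputable section

namespace Pool.Agent.Helper17.ND

open Pool.Agent.Helper76.ND Finset

theorem ns_dvd (e s M c : ℕ) :
    3 ^ e ∣ 2 ^ s * (M + 3 ^ e) + c ↔ 3 ^ e ∣ 2 ^ s * M + c := by
  rw [show 2 ^ s * (M + 3 ^ e) + c = (2 ^ s * M + c) + 3 ^ e * 2 ^ s by ring]
  exact Nat.dvd_add_left (Dvd.intro _ rfl)

theorem ns_unique (e s c : ℕ) :
    ((range (3 ^ e)).filter (fun M => 3 ^ e ∣ 2 ^ s * M + c)).card = 1 := by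
  have hN : 0 < 3 ^ e := by positivity
  have hinj : Set.InjOn (fun M => (2 ^ s * M + c) % 3 ^ e) (range (3 ^ e) : Set ℕ) := by
    intro a ha b hb hab
    have ha' : a < 3 ^ e := by simpa using ha
    have hb' : b < 3 ^ e := by simpa using hb
    have h1 : 2 ^ s * a + c ≡ 2 ^ s * b + c [MOD 3 ^ e] := hab
    have h2 := Nat.ModEq.add_right_cancel' c h1
    have hc : Nat.gcd (3 ^ e) (2 ^ s) = 1 :=
      Nat.Coprime.pow_left e (Nat.Coprime.pow_right s (by norm_num))
    have h3 := Nat.ModEq.cancel_left_of_coprime hc h2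
    exact Nat.ModEq.eq_of_lt_of_lt h3 ha' hb'
  have himg : (range (3 ^ e)).image (fun M => (2 ^ s * M + c) % 3 ^ e) = range (3 ^ e) := by
    apply Finset.eq_of_subset_of_card_le
    · intro x hx
      rw [mem_image] at hx
      obtain ⟨a, -, rfl⟩ := hx
      rw [mem_range]
      exact Nat.mod_lt _ hN
    · rw [Finset.card_image_of_injOn hinj]
  have h0 : 0 ∈ (range (3 ^ e)).image (fun M => (2 ^ s * M + c) % 3 ^ e) := by
    rw [himg, mem_range]; exact hN
  rw [mem_image] at h0
  obtain ⟨M0, hM0, hM0'⟩ := h0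
  rw [Finset.card_eq_one]
  refine ⟨M0, ?_⟩
  ext M
  rw [mem_filter, mem_singleton]
  constructor
  · rintro ⟨h1, h2⟩
    apply hinj h1 hM0
    show (2 ^ s * M + c) % 3 ^ e = (2 ^ s * M0 + c) % 3 ^ e
    rw [hM0']
    exact Nat.mod_eq_zero_of_dvd h2
  · rintro rfl
    exact ⟨hM0, Nat.dvd_of_mod_eq_zero hM0'⟩

theorem ns_sum (e s : ℕ) (A : Finset (List Bool)) :
    ∑ M ∈ range (3 ^ e), ((A.filter (fun l => 3 ^ e ∣ 2 ^ s * M + cc l)).card : ℝ) =
      (A.card : ℝ) := by
  have h : ∑ M ∈ range (3 ^ e), ((A.filter (fun l => 3 ^ e ∣ 2 ^ s * M + cc l)).card) =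
      A.card := by
    simp only [card_filter]
    rw [Finset.sum_comm]
    have h1 : ∀ l ∈ A, ∑ M ∈ range (3 ^ e), (if 3 ^ e ∣ 2 ^ s * M + cc l then 1 else 0) = 1 := by
      intro l _
      rw [← card_filter]
      exact ns_unique e s (cc l)
    rw [Finset.sum_congr rfl h1]
    simp
  exact_mod_cast h

theorem hNs (hGen : StGen) : StNs := by
  have p1 : ∀ e n s M, ns e n s (M + 3 ^ e) = ns e n s M := by
    intro e n s M
    unfold ns
    simp only [ns_dvd]
  have p4 : ∀ e n s, ∑ M ∈ range (3 ^ e), ns e n s M = qs n s := by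
    intro e n s
    rw [← card_hd_te]
    unfold ns
    rw [← Finset.sum_div]
    congr 1
    rw [← ns_sum e s ((W s).filter (fun l => hd l = n ∧ te l = true))]
    refine Finset.sum_congr rfl fun M _ => ?_
    rw [Finset.filter_filter]
    simp only [and_assoc]
  refine ⟨p1, ?_, ?_, p4, ?_, ?_, ?_⟩
  · intro k t M
    unfold nt
    simp only [ns_dvd]
  · intro m M
    unfold pim
    refine Finset.sum_congr rfl fun s _ => p1 m m s M
  · intro k t
    unfold q
    rw [← card_hd]
    unfold nt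
    rw [← Finset.sum_div]
    congr 1
    rw [← ns_sum k t ((W t).filter (fun l => hd l = k))]
    refine Finset.sum_congr rfl fun M _ => ?_
    rw [Finset.filter_filter]
  · intro m
    unfold pim
    rw [Finset.sum_comm]
    have h := hGen m (8 * m + 1) 1 (by norm_num) (by norm_num)
    have h2 : (1 / (2 - 1) : ℝ) ^ m = 1 := by norm_num
    rw [h2] at h
    refine le_trans (le_of_eq (Finset.sum_congr rfl fun s _ => ?_)) h
    rw [p4, one_pow, mul_one]
  · intro k t M hk
    constructor
    · unfold nt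
      have : (W t).filter (fun l => hd l = k ∧ 3 ^ k ∣ 2 ^ t * M + cc l) = ∅ := by
        rw [Finset.filter_eq_empty_iff]
        rintro l hl ⟨h1, -⟩
        rw [mem_W] at hl
        have := hd_le l
        omega
      rw [this]
      simp
    · unfold q
      rw [Nat.choose_eq_zero_of_lt hk]
      simp

end Pool.Agent.Helper17.ND
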