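import Pool.Agent.Helper76.ND.StD

/-!
# Module Ob of project ND: properties of the functional `O1`
-/

set_option autoImplicit false

noncomputable section

namespace Pool.Agent.Helper17.ND

open Pool.Agent.Helper76.ND Finset

theorem ob_nonneg (n e : ℕ) (c : ZMod (3 ^ n) → ℝ) : 0 ≤ O1 n e c :=
  Finset.sum_nonneg fun _ _ => abs_nonneg _

theorem ob_add (n e : ℕ) (c c' : ZMod (3 ^ n) → ℝ) :
    O1 n e (fun r => c r + c' r) ≤ O1 n e c + O1 n e c' := by
  unfold O1
  rw [← Finset.sum_add_distrib]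
  refine Finset.sum_le_sum fun r _ => ?_
  rw [Finset.sum_add_distrib, add_div]
  rw [show c r + c' r - ((∑ j ∈ range (3 ^ (n - e)), c (r + 3 ^ e * (j : ZMod (3 ^ n)))) /
      3 ^ (n - e) + (∑ j ∈ range (3 ^ (n - e)), c' (r + 3 ^ e * (j : ZMod (3 ^ n)))) /
      3 ^ (n - e)) = (c r - (∑ j ∈ range (3 ^ (n - e)), c (r + 3 ^ e * (j : ZMod (3 ^ n)))) /
      3 ^ (n - e)) + (c' r - (∑ j ∈ range (3 ^ (n - e)), c' (r + 3 ^ e * (j : ZMod (3 ^ n)))) /
      3 ^ (n - e)) by ring]
  exact abs_add_le _ _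

theorem ob_mul (n e : ℕ) (a : ℝ) (c : ZMod (3 ^ n) → ℝ) :
    O1 n e (fun r => a * c r) = |a| * O1 n e c := by
  unfold O1
  rw [Finset.mul_sum]
  refine Finset.sum_congr rfl fun r _ => ?_
  rw [← Finset.mul_sum, mul_div_assoc, ← mul_sub, abs_mul]

theorem ob_sum {ι : Type} [DecidableEq ι] (n e : ℕ) (s : Finset ι) (F : ι → ZMod (3 ^ n) → ℝ) :
    O1 n e (fun r => ∑ i ∈ s, F i r) ≤ ∑ i ∈ s, O1 n e (F i) := by
  induction s using Finset.induction_on with
  | empty =>
    simp only [Finset.sum_empty]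
    unfold O1
    simp
  | insert i s hi ih =>
    rw [Finset.sum_insert hi]
    have : (fun r => ∑ i ∈ insert i s, F i r) = fun r => F i r + ∑ i ∈ s, F i r := by
      funext r
      rw [Finset.sum_insert hi]
    rw [this]
    exact (ob_add n e _ _).trans (by gcongr)

theorem ob_trans (n e : ℕ) (c : ZMod (3 ^ n) → ℝ) (a : ZMod (3 ^ n)) :
    O1 n e (fun r => c (r - a)) = O1 n e c := by
  unfold O1
  refine Fintype.sum_equiv (Equiv.subRight a) _ _ fun r => ?_
  have h : ∀ j : ℕ, r + 3 ^ e * (j : ZMod (3 ^ n)) - a = r - a + 3 ^ e * (j : ZMod (3 ^ n)) :=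
    fun j => by ring
  simp only [Equiv.subRight_apply, h]

theorem ob_le (n e : ℕ) (c : ZMod (3 ^ n) → ℝ) : O1 n e c ≤ 2 * ∑ r, |c r| := by
  have hN : (0 : ℝ) < 3 ^ (n - e) := by positivity
  have h1 : O1 n e c ≤ ∑ r, (|c r| +
      (∑ j ∈ range (3 ^ (n - e)), |c (r + 3 ^ e * (j : ZMod (3 ^ n)))|) / 3 ^ (n - e)) := by
    unfold O1
    refine Finset.sum_le_sum fun r _ => ?_
    refine (abs_sub _ _).trans ?_
    rw [abs_div, abs_of_pos hN]
    gcongr
    exact Finset.abs_sum_le_sum_abs _ _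
  refine h1.trans (le_of_eq ?_)
  rw [Finset.sum_add_distrib, ← Finset.sum_div, Finset.sum_comm]
  have h2 : ∀ j ∈ range (3 ^ (n - e)), ∑ r : ZMod (3 ^ n), |c (r + 3 ^ e * (j : ZMod (3 ^ n)))| =
      ∑ r, |c r| := by
    intro j _
    exact Fintype.sum_equiv (Equiv.addRight (3 ^ e * (j : ZMod (3 ^ n)))) _ _ fun r => rfl
  rw [Finset.sum_congr rfl h2, Finset.sum_const, card_range, nsmul_eq_mul]
  push_cast
  field_simp
  ring

theorem hOb : StOb := by
  refine ⟨ob_nonneg, ob_add, ob_mul, fun n e s F => ob_sum n e s F, ob_trans, ob_le, ?_⟩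
  intro n e k s c u
  have e1 : Rn n k s c u = fun r => (1 / 2 ^ s : ℝ) *
      ∑ l ∈ (W s).filter (fun l => hd l = k ∧ te l = true), c (r - u * Yz n l) := by
    funext r
    unfold Rn
    rw [div_eq_inv_mul, one_div]
  rw [e1, ob_mul, abs_of_pos (by positivity)]
  have h2 := ob_sum n e ((W s).filter (fun l => hd l = k ∧ te l = true))
    (fun l r => c (r - u * Yz n l))
  have h3 : ∑ l ∈ (W s).filter (fun l => hd l = k ∧ te l = true),
      O1 n e (fun r => c (r - u * Yz n l)) =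
      (((W s).filter (fun l => hd l = k ∧ te l = true)).card : ℝ) * O1 n e c := by
    rw [Finset.sum_congr rfl fun l _ => ob_trans n e c (u * Yz n l), Finset.sum_const,
      nsmul_eq_mul]
  rw [h3] at h2
  rw [← card_hd_te]
  calc 1 / 2 ^ s * O1 n e (fun r =>
        ∑ l ∈ (W s).filter (fun l => hd l = k ∧ te l = true), c (r - u * Yz n l))
      ≤ 1 / 2 ^ s * ((((W s).filter (fun l => hd l = k ∧ te l = true)).card : ℝ) * O1 n e c) := by
        gcongr
    _ = (((W s).filter (fun l => hd l = k ∧ te l = true)).card : ℝ) / 2 ^ s * O1 n e c := by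
        ring

end Pool.Agent.Helper17.ND
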