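import Pool.Agent.Helper76.ND.StD

/-!
# Module Pe of project ND: sums of periodic functions
-/

set_option autoImplicit false

noncomputable section

namespace Pool.Agent.Helper17.ND

open Pool.Agent.Helper76.ND Finset

theorem pe_mul (g : ℕ → ℝ) (P : ℕ) (h : ∀ M, g (M + P) = g M) (Q x : ℕ) :
    g (P * Q + x) = g x := by
  induction Q with
  | zero => simp
  | succ Q ih =>
    rw [← ih, show P * (Q + 1) + x = P * Q + x + P by ring]
    exact h _

theorem pe_one (g : ℕ → ℝ) (P Q : ℕ) (h : ∀ M, g (M + P) = g M) :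
    ∑ M ∈ range (P * Q), g M = Q * ∑ M ∈ range P, g M := by
  induction Q with
  | zero => simp
  | succ Q ih =>
    rw [Nat.mul_succ, Finset.sum_range_add, ih]
    have : ∑ x ∈ range P, g (P * Q + x) = ∑ x ∈ range P, g x :=
      Finset.sum_congr rfl fun x _ => pe_mul g P h Q x
    rw [this]
    push_cast
    ring

theorem pe_shift (g : ℕ → ℝ) (P : ℕ) (h : ∀ M, g (M + P) = g M) (a : ℕ) :
    ∑ x ∈ range P, g (a + x) = ∑ x ∈ range P, g x := by
  induction a with
  | zero => simp
  | succ a ih =>
    rw [← ih]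
    have h1 := Finset.sum_range_succ (fun x => g (a + x)) P
    have h2 := Finset.sum_range_succ' (fun x => g (a + x)) P
    rw [h1] at h2
    have h3 : ∑ x ∈ range P, g (a + 1 + x) = ∑ x ∈ range P, g (a + (x + 1)) :=
      Finset.sum_congr rfl fun x _ => by rw [show a + 1 + x = a + (x + 1) by ring]
    rw [h3]
    have h4 : g (a + P) = g (a + 0) := by rw [h a, add_zero]
    rw [h4] at h2
    linarith

theorem hPe : StPe := by
  refine ⟨fun g P Q h => pe_one g P Q h, ?_⟩
  intro g P a b hP h0 h hab
  have hsub : Ico a b ⊆ Ico a (a + P * ((b - a) / P + 1)) := by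
    apply Finset.Ico_subset_Ico le_rfl
    have h1 := Nat.div_add_mod (b - a) P
    have h2 := Nat.mod_lt (b - a) (show 0 < P by omega)
    rw [Nat.mul_add, mul_one]
    omega
  refine (Finset.sum_le_sum_of_subset_of_nonneg hsub fun i _ _ => h0 i).trans ?_
  rw [Finset.sum_Ico_eq_sum_range, Nat.add_sub_cancel_left]
  have e := pe_one (fun x => g (a + x)) P ((b - a) / P + 1) (fun M => by
    show g (a + (M + P)) = g (a + M)
    rw [← add_assoc]
    exact h _)
  rw [e, pe_shift g P h a]
  apply mul_le_mul_of_nonneg_right _ (Finset.sum_nonneg fun x _ => h0 x)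
  push_cast
  have := @Nat.cast_div_le ℝ _ _ _ (b - a) P
  rw [Nat.cast_sub hab] at this
  linarith

end Pool.Agent.Helper17.ND
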