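import Pool.Agent.Helper76.ND.StD

/-!
# Module Qs of project ND: masses and tails of negative binomial laws
-/

set_option autoImplicit false

noncomputable section

namespace Pool.Agent.Helper17.ND

open Pool.Agent.Helper76.ND Finset

theorem qs_total (hCv : StCv) (K : ℕ) :
    ∀ n, ∑ s ∈ range (K + 1), qs n s + ∑ k ∈ range n, q K k = 1 := by
  induction K with
  | zero =>
    intro n
    rw [zero_add, Finset.sum_range_one]
    cases n with
    | zero => simp [qs]
    | succ n =>
      rw [Finset.sum_range_succ']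
      have : ∀ k ∈ range n, q 0 (k + 1) = 0 := by
        intro k _
        simp [q]
      rw [Finset.sum_congr rfl this]
      simp [q, qs]
  | succ K ih =>
    intro n
    cases n with
    | zero =>
      rw [Finset.sum_range_succ']
      have : ∀ k ∈ range (K + 1), qs 0 (k + 1) = 0 := fun k _ => rfl
      rw [Finset.sum_congr rfl this]
      simp [qs]
    | succ n =>
      have i1 := ih (n + 1)
      have i0 := ih n
      rw [Finset.sum_range_succ' _ (K + 1)]
      have e1 : ∑ s ∈ range (K + 1), qs (n + 1) (s + 1) =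
          (∑ s ∈ range (K + 1), qs (n + 1) s + ∑ s ∈ range (K + 1), qs n s) / 2 := by
        rw [← Finset.sum_add_distrib, Finset.sum_div]
        exact Finset.sum_congr rfl fun s _ => hCv.1 n s
      have e2 : ∑ k ∈ range (n + 1), q (K + 1) k =
          (∑ k ∈ range (n + 1), q K k + ∑ k ∈ range n, q K k) / 2 := by
        rw [Finset.sum_range_succ', Finset.sum_range_succ' (fun k => q K k) n]
        have e3 : ∑ k ∈ range n, q (K + 1) (k + 1) =
            (∑ k ∈ range n, q K (k + 1) + ∑ k ∈ range n, q K k) / 2 := by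
          rw [← Finset.sum_add_distrib, Finset.sum_div]
          refine Finset.sum_congr rfl fun k _ => ?_
          unfold q
          rw [Nat.choose_succ_succ, pow_succ]
          push_cast
          field_simp
          ring
        have e4 : q (K + 1) 0 = q K 0 / 2 := by
          unfold q
          rw [Nat.choose_zero_right, Nat.choose_zero_right, pow_succ, div_div]
        rw [e3, e4]
        ring
      have e5 : qs (n + 1) 0 = 0 := rfl
      rw [e1, e2, e5]
      linarith

theorem hQs (hGen : StGen) (hCv : StCv) : StQs := by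
  have p1 : ∀ n K, ∑ s ∈ range K, qs n s ≤ 1 := by
    intro n K
    have h := hGen n K 1 (by norm_num) (by norm_num)
    have h2 : (1 / (2 - 1) : ℝ) ^ n = 1 := by norm_num
    rw [h2] at h
    refine le_trans (le_of_eq (Finset.sum_congr rfl fun s _ => ?_)) h
    rw [one_pow, mul_one]
  refine ⟨p1, ?_, ?_, ?_⟩
  · intro k K
    have h := p1 (k + 1) (K + 1)
    rw [Finset.sum_range_succ'] at h
    have e0 : qs (k + 1) 0 = 0 := rfl
    rw [e0, add_zero] at h
    have e : ∑ t ∈ range K, q t k = 2 * ∑ t ∈ range K, qs (k + 1) (t + 1) := by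
      rw [Finset.mul_sum]
      refine Finset.sum_congr rfl fun t _ => ?_
      show (t.choose k : ℝ) / 2 ^ t = 2 * ((t.choose k : ℝ) / 2 ^ (t + 1))
      rw [pow_succ]
      field_simp
    rw [e]
    linarith
  · intro m K
    have h := hGen m K (3 / 2) (by norm_num) (by norm_num)
    have h3 : ((3 / 2 : ℝ) / (2 - 3 / 2)) ^ m = 3 ^ m := by norm_num
    rw [h3] at h
    have hle : ∀ s ∈ Ico (8 * m + 1) K, qs m s ≤ (2 / 3 : ℝ) ^ (8 * m) * (qs m s * (3 / 2) ^ s) := by
      intro s hs
      rw [mem_Ico] at hs
      obtain ⟨j, rfl⟩ : ∃ j, s = 8 * m + j := ⟨s - 8 * m, by omega⟩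
      have e : (2 / 3 : ℝ) ^ (8 * m) * (qs m (8 * m + j) * (3 / 2) ^ (8 * m + j)) =
          qs m (8 * m + j) * (3 / 2) ^ j := by
        rw [pow_add, show (2 / 3 : ℝ) = (3 / 2)⁻¹ by norm_num, inv_pow]
        field_simp
      rw [e]
      have h1 : (1 : ℝ) ≤ (3 / 2) ^ j := one_le_pow₀ (by norm_num)
      have := qs_nonneg m (8 * m + j)
      nlinarith
    calc ∑ s ∈ Ico (8 * m + 1) K, qs m s
        ≤ ∑ s ∈ Ico (8 * m + 1) K, (2 / 3 : ℝ) ^ (8 * m) * (qs m s * (3 / 2) ^ s) :=
          Finset.sum_le_sum hle
      _ ≤ ∑ s ∈ range K, (2 / 3 : ℝ) ^ (8 * m) * (qs m s * (3 / 2) ^ s) := by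
          apply Finset.sum_le_sum_of_subset_of_nonneg
          · intro s hs
            rw [mem_Ico] at hs
            rw [mem_range]
            exact hs.2
          · intro s _ _
            have := qs_nonneg m s
            positivity
      _ = (2 / 3 : ℝ) ^ (8 * m) * ∑ s ∈ range K, qs m s * (3 / 2) ^ s := by
          rw [Finset.mul_sum]
      _ ≤ (2 / 3 : ℝ) ^ (8 * m) * 3 ^ m := by gcongr
      _ = ((2 / 3 : ℝ) ^ 8 * 3) ^ m := by rw [pow_mul, mul_pow]
      _ ≤ (1 / 8 : ℝ) ^ m := by
          apply pow_le_pow_left₀ (by norm_num)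
          norm_num
      _ = 1 / 8 ^ m := by rw [one_div_pow]
  · intro m
    have ht := qs_total hCv (8 * m) m
    have hq : ∑ k ∈ range m, q (8 * m) k ≤ 1 / 8 ^ m := by
      have hle : ∀ k ∈ range m, q (8 * m) k ≤ (7 : ℝ) ^ m * (q (8 * m) k * (1 / 7) ^ k) := by
        intro k hk
        rw [mem_range] at hk
        obtain ⟨j, rfl⟩ : ∃ j, m = k + j := ⟨m - k, by omega⟩
        have e : (7 : ℝ) ^ (k + j) * (q (8 * (k + j)) k * (1 / 7) ^ k) =
            q (8 * (k + j)) k * 7 ^ j := by
          rw [pow_add, one_div, inv_pow]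
          field_simp
        rw [e]
        have h1 : (1 : ℝ) ≤ 7 ^ j := one_le_pow₀ (by norm_num)
        have := q_nonneg (8 * (k + j)) k
        nlinarith
      calc ∑ k ∈ range m, q (8 * m) k
          ≤ ∑ k ∈ range m, (7 : ℝ) ^ m * (q (8 * m) k * (1 / 7) ^ k) := Finset.sum_le_sum hle
        _ ≤ ∑ k ∈ range (8 * m + 1), (7 : ℝ) ^ m * (q (8 * m) k * (1 / 7) ^ k) := by
            apply Finset.sum_le_sum_of_subset_of_nonneg
            · intro k hk
              rw [mem_range] at hk ⊢
              omega
            · intro k _ _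
              have := q_nonneg (8 * m) k
              positivity
        _ = (7 : ℝ) ^ m * ((1 / 7 + 1) ^ (8 * m) / 2 ^ (8 * m)) := by
            rw [← Finset.mul_sum, add_pow, Finset.sum_div]
            congr 1
            refine Finset.sum_congr rfl fun k _ => ?_
            unfold q
            rw [one_pow]
            ring
        _ = (7 * (4 / 7) ^ 8 : ℝ) ^ m := by
            rw [← div_pow, mul_pow, ← pow_mul]
            norm_num
        _ ≤ (1 / 8 : ℝ) ^ m := by
            apply pow_le_pow_left₀ (by norm_num)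
            norm_num
        _ = 1 / 8 ^ m := by rw [one_div_pow]
    linarith

end Pool.Agent.Helper17.ND
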