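import Pool.Agent.Helper76.ND.StC

/-!
# Module Ren of project ND: the renewal sequence modulo three
-/

set_option autoImplicit false

noncomputable section

namespace Pool.Agent.Helper17.ND

open Pool.Agent.Helper76.ND Finset

/-- the sum over one residue class modulo three -/
def aa (r B : ℕ) : ℝ := ∑ j ∈ range (B + 1), qs (3 * j + r) B

theorem ren_step (hCv : StCv) (r B : ℕ) : aa (r + 1) (B + 1) = (aa (r + 1) B + aa r B) / 2 := by
  obtain ⟨h1, -, -, h4⟩ := hCv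
  unfold aa
  rw [Finset.sum_range_succ]
  have h0 : qs (3 * (B + 1) + (r + 1)) (B + 1) = 0 := h4 _ _ (by omega)
  rw [h0, add_zero, ← Finset.sum_add_distrib, Finset.sum_div]
  refine Finset.sum_congr rfl fun j _ => ?_
  rw [← add_assoc]
  exact h1 _ _

theorem ren_step0 (hCv : StCv) (B : ℕ) : aa 0 (B + 2) = (aa 0 (B + 1) + aa 2 (B + 1)) / 2 := by
  obtain ⟨h1, -, -, h4⟩ := hCv
  unfold aa
  rw [Finset.sum_range_succ']
  have h0 : qs (3 * 0 + 0) (B + 2) = 0 := rfl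
  have h0' : qs (3 * 0 + 0) (B + 1) = 0 := rfl
  rw [h0, add_zero]
  have e : ∑ j ∈ range (B + 1 + 1), qs (3 * j + 0) (B + 1) =
      ∑ j ∈ range (B + 1 + 1), qs (3 * (j + 1) + 0) (B + 1) := by
    rw [Finset.sum_range_succ' _ (B + 1), h0', add_zero, Finset.sum_range_succ _ (B + 1)]
    rw [h4 (3 * (B + 1 + 1) + 0) (B + 1) (by omega), add_zero]
  rw [e, ← Finset.sum_add_distrib, Finset.sum_div]
  refine Finset.sum_congr rfl fun j _ => ?_
  have := h1 (3 * j + 2) (B + 1)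
  rw [show 3 * (j + 1) + 0 = 3 * j + 2 + 1 by ring]
  exact this

theorem ren_main (hCv : StCv) (m : ℕ) :
    aa 0 (m + 1) + aa 1 (m + 1) + aa 2 (m + 1) = 1 / 2 ∧
    |aa 0 (m + 1) - 1 / 6| ≤ 1 / 3 * (1 / 2 : ℝ) ^ m ∧
    |aa 1 (m + 1) - 1 / 6| ≤ 1 / 3 * (1 / 2 : ℝ) ^ m ∧
    |aa 2 (m + 1) - 1 / 6| ≤ 1 / 3 * (1 / 2 : ℝ) ^ m := by
  induction m with
  | zero =>
    have h4 := hCv.2.2.2
    have e0 : aa 0 1 = 0 := by
      unfold aa
      rw [Finset.sum_range_succ, Finset.sum_range_one, h4 (3 * 1 + 0) 1 (by norm_num)]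
      show qs 0 1 + 0 = 0
      rw [add_zero]; rfl
    have e1 : aa 1 1 = 1 / 2 := by
      unfold aa
      rw [Finset.sum_range_succ, Finset.sum_range_one, h4 (3 * 1 + 1) 1 (by norm_num)]
      show qs 1 1 + 0 = 1 / 2
      simp [qs]
    have e2 : aa 2 1 = 0 := by
      unfold aa
      rw [Finset.sum_range_succ, Finset.sum_range_one, h4 (3 * 1 + 2) 1 (by norm_num),
        h4 (3 * 0 + 2) 1 (by norm_num)]
      norm_num
    rw [zero_add, e0, e1, e2]
    norm_num [abs_le]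
  | succ m ih =>
    obtain ⟨hs, h0, h1, h2⟩ := ih
    have s0 := ren_step0 hCv m
    have s1 := ren_step hCv 0 (m + 1)
    have s2 := ren_step hCv 1 (m + 1)
    rw [show m + 1 + 1 = m + 2 by ring] at *
    rw [show (0 : ℕ) + 1 = 1 by rfl] at s1
    rw [show (1 : ℕ) + 1 = 2 by rfl] at s2
    rw [abs_le] at h0 h1 h2
    rw [s0, s1, s2, pow_succ, abs_le, abs_le, abs_le]
    refine ⟨by linarith, ⟨by linarith, by linarith⟩, ⟨by linarith, by linarith⟩,
      ⟨by linarith, by linarith⟩⟩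

theorem hRen (hCv : StCv) : StRen := by
  intro B
  cases B with
  | zero =>
    rw [zero_add, Finset.sum_range_one]
    show qs 0 0 ≤ _
    have : qs 0 0 = 1 := rfl
    rw [this]
    norm_num
  | succ m =>
    obtain ⟨-, h0, -, -⟩ := ren_main hCv m
    have e : ∑ j ∈ range (m + 1 + 1), qs (3 * j) (m + 1) = aa 0 (m + 1) := rfl
    rw [e, pow_succ]
    rw [abs_le] at h0
    have hp : (0 : ℝ) ≤ (1 / 2) ^ m := by positivity
    linarith [h0.2]

end Pool.Agent.Helper17.ND
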