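import Pool.Agent.Helper76.ND.StE

/-!
# Module Rl of project ND: words and orbits
-/

set_option autoImplicit false

noncomputable section

namespace Pool.Agent.Helper17.ND

open Pool.Agent.Helper76.ND Finset

theorem rl_one (t N : ℕ) : 3 ^ hd (wd t N) * N = 2 ^ t * S^[t] N + cc (wd t N) := by
  induction t with
  | zero => simp [wd]
  | succ t ih =>
    rw [Function.iterate_succ_apply']
    have hw : wd (t + 1) N = decide (S^[t] N % 2 = 1) :: wd t N := rfl
    have hlen := wd_length t N
    generalize wd t N = w at *
    generalize S^[t] N = m at *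
    rw [hw]
    by_cases h : m % 2 = 1
    · rw [decide_eq_true h, hd_true, cc_true, hlen]
      obtain ⟨j, hj⟩ : ∃ j, m = 2 * j + 1 := ⟨m / 2, by omega⟩
      have hS : S m = 3 * j + 1 := by
        unfold S
        rw [if_neg (by omega)]
        omega
      rw [hS]
      rw [hj] at ih
      calc 3 ^ (hd w + 1) * N = 3 * (3 ^ hd w * N) := by ring
        _ = 3 * (2 ^ t * (2 * j + 1) + cc w) := by rw [ih]
        _ = 2 ^ (t + 1) * (3 * j + 1) + (2 ^ t + 3 * cc w) := by ring
    · rw [decide_eq_false h, hd_false, cc_false]
      obtain ⟨j, hj⟩ : ∃ j, m = 2 * j := ⟨m / 2, by omega⟩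
      have hS : S m = j := by
        unfold S
        rw [if_pos (by omega)]
        omega
      rw [hS, ih, hj]
      ring

theorem rl_two (l : List Bool) : ∀ M : ℕ, 3 ^ hd l ∣ 2 ^ l.length * M + cc l →
    S^[l.length] ((2 ^ l.length * M + cc l) / 3 ^ hd l) = M ∧
    wd l.length ((2 ^ l.length * M + cc l) / 3 ^ hd l) = l := by
  induction l with
  | nil =>
    intro M _
    simp [wd]
  | cons x l ih =>
    intro M h
    cases x with
    | false =>
      rw [hd_false, cc_false, List.length_cons] at h ⊢
      rw [show 2 ^ (l.length + 1) * M = 2 ^ l.length * (2 * M) by ring] at h ⊢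
      obtain ⟨h1, h2⟩ := ih (2 * M) h
      rw [Function.iterate_succ_apply', h1]
      constructor
      · unfold S
        rw [if_pos (by omega)]
        omega
      · show decide (S^[l.length] _ % 2 = 1) :: wd l.length _ = _
        rw [h1, h2]
        rw [decide_eq_false (by omega)]
    | true =>
      rw [hd_true, cc_true, List.length_cons] at h ⊢
      have e1 : 2 ^ (l.length + 1) * M + (2 ^ l.length + 3 * cc l) =
          2 ^ l.length * (2 * M + 1) + 3 * cc l := by ring
      rw [e1] at h ⊢
      have h3 : 3 ∣ 2 ^ l.length * (2 * M + 1) := by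
        have h4 : 3 ∣ 2 ^ l.length * (2 * M + 1) + 3 * cc l :=
          (dvd_pow_self 3 (by omega)).trans h
        exact (Nat.dvd_add_left (Dvd.intro _ rfl)).1 h4
      have hc : Nat.Coprime 3 (2 ^ l.length) := Nat.Coprime.pow_right _ (by norm_num)
      obtain ⟨M', hM'⟩ := hc.dvd_of_dvd_mul_left h3
      rw [hM'] at h ⊢
      have e2 : 2 ^ l.length * (3 * M') + 3 * cc l = 3 * (2 ^ l.length * M' + cc l) := by ring
      rw [e2, pow_succ, mul_comm (3 ^ hd l) 3] at h ⊢
      have h5 := Nat.dvd_of_mul_dvd_mul_left (by norm_num) h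
      rw [Nat.mul_div_mul_left _ _ (by norm_num : 0 < 3)]
      obtain ⟨h6, h7⟩ := ih M' h5
      rw [Function.iterate_succ_apply', h6]
      constructor
      · unfold S
        rw [if_neg (by omega)]
        omega
      · show decide (S^[l.length] _ % 2 = 1) :: wd l.length _ = _
        rw [h6, h7]
        rw [decide_eq_true (by omega)]

theorem rl_three (t j N : ℕ) (h : j ≤ t) : (wd t N).drop (t - j) = wd j N := by
  induction t with
  | zero =>
    have : j = 0 := by omega
    subst this
    rfl
  | succ t ih =>
    rcases Nat.eq_or_lt_of_le h with h1 | h1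
    · subst h1
      rw [Nat.sub_self, List.drop_zero]
    · have h2 : t + 1 - j = (t - j) + 1 := by omega
      rw [h2]
      show (decide (S^[t] N % 2 = 1) :: wd t N).drop ((t - j) + 1) = _
      rw [List.drop_succ_cons]
      exact ih (by omega)

theorem hRl : StRl := ⟨rl_one, rl_two, rl_three⟩

end Pool.Agent.Helper17.ND
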