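import Pool.Agent.Helper76.ND.StD

/-!
# Module Sp of project ND: split after `m` heads
-/

set_option autoImplicit false

noncomputable section

namespace Pool.Agent.Helper17.ND

open Pool.Agent.Helper76.ND Finset

/-- the probability without the condition on the last letter -/
def nu (e n s M : ℕ) : ℝ :=
  (((W s).filter (fun l => hd l = n ∧ 3 ^ e ∣ 2 ^ s * M + cc l)).card : ℝ) / 2 ^ s

theorem sp_dvd (e s M c : ℕ) : 3 ^ e ∣ 2 ^ (s + 1) * M + 2 * c ↔ 3 ^ e ∣ 2 ^ s * M + c := by
  rw [show 2 ^ (s + 1) * M + 2 * c = 2 * (2 ^ s * M + c) by ring]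
  have hc : Nat.Coprime (3 ^ e) 2 := Nat.Coprime.pow_left e (by norm_num)
  exact hc.dvd_mul_left

theorem cc_snoc_false (l : List Bool) : cc (l ++ [false]) = 2 * cc l := by
  rw [cc_append]
  simp

theorem cc_snoc_true (l : List Bool) : cc (l ++ [true]) = 2 * cc l + 3 ^ hd l := by
  rw [cc_append]
  simp

theorem hd_snoc_false (l : List Bool) : hd (l ++ [false]) = hd l := by simp

theorem hd_snoc_true (l : List Bool) : hd (l ++ [true]) = hd l + 1 := by simp

theorem nu_succ (e n s M : ℕ) : nu e n (s + 1) M = nu e n s M / 2 + ns e n (s + 1) M := by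
  unfold nu ns
  have h1 : ((W (s + 1)).filter (fun l => hd l = n ∧ 3 ^ e ∣ 2 ^ (s + 1) * M + cc l)).card =
      ((W s).filter (fun l => hd l = n ∧ 3 ^ e ∣ 2 ^ s * M + cc l)).card +
      ((W (s + 1)).filter
        (fun l => hd l = n ∧ te l = true ∧ 3 ^ e ∣ 2 ^ (s + 1) * M + cc l)).card := by
    rw [card_filter, card_filter, card_filter, sum_W_snoc, sum_W_snoc]
    have a1 : ∑ l ∈ W s, (if hd (l ++ [false]) = n ∧ 3 ^ e ∣ 2 ^ (s + 1) * M + cc (l ++ [false])
        then 1 else 0) =
        ∑ l ∈ W s, if hd l = n ∧ 3 ^ e ∣ 2 ^ s * M + cc l then 1 else 0 := by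
      refine Finset.sum_congr rfl fun l _ => ?_
      rw [cc_snoc_false, hd_snoc_false]
      exact if_congr (and_congr_right fun _ => sp_dvd e s M _) rfl rfl
    have a2 : ∑ l ∈ W s, (if hd (l ++ [false]) = n ∧ te (l ++ [false]) = true ∧
        3 ^ e ∣ 2 ^ (s + 1) * M + cc (l ++ [false]) then 1 else 0) = 0 := by
      refine Finset.sum_eq_zero fun l _ => ?_
      rw [if_neg]
      rintro ⟨-, h, -⟩
      rw [te_snoc] at h
      exact absurd h (by simp)
    have a3 : ∑ l ∈ W s, (if hd (l ++ [true]) = n ∧ te (l ++ [true]) = true ∧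
        3 ^ e ∣ 2 ^ (s + 1) * M + cc (l ++ [true]) then 1 else 0) =
        ∑ l ∈ W s, if hd (l ++ [true]) = n ∧
        3 ^ e ∣ 2 ^ (s + 1) * M + cc (l ++ [true]) then 1 else 0 := by
      refine Finset.sum_congr rfl fun l _ => ?_
      rw [te_snoc]
      simp
    rw [a1, a2, a3, zero_add]
  rw [h1, Nat.cast_add, add_div, div_div, ← pow_succ]

theorem ns_succ_nu (e n s M : ℕ) (he : e ≤ n) : ns e (n + 1) (s + 1) M = nu e n s M / 2 := by
  unfold nu ns
  have h1 : ((W (s + 1)).filter
        (fun l => hd l = n + 1 ∧ te l = true ∧ 3 ^ e ∣ 2 ^ (s + 1) * M + cc l)).card =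
      ((W s).filter (fun l => hd l = n ∧ 3 ^ e ∣ 2 ^ s * M + cc l)).card := by
    rw [card_filter, card_filter, sum_W_snoc]
    have a2 : ∑ l ∈ W s, (if hd (l ++ [false]) = n + 1 ∧ te (l ++ [false]) = true ∧
        3 ^ e ∣ 2 ^ (s + 1) * M + cc (l ++ [false]) then 1 else 0) = 0 := by
      refine Finset.sum_eq_zero fun l _ => ?_
      rw [if_neg]
      rintro ⟨-, h, -⟩
      rw [te_snoc] at h
      exact absurd h (by simp)
    have a3 : ∑ l ∈ W s, (if hd (l ++ [true]) = n + 1 ∧ te (l ++ [true]) = true ∧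
        3 ^ e ∣ 2 ^ (s + 1) * M + cc (l ++ [true]) then 1 else 0) =
        ∑ l ∈ W s, if hd l = n ∧ 3 ^ e ∣ 2 ^ s * M + cc l then 1 else 0 := by
      refine Finset.sum_congr rfl fun l _ => ?_
      rw [te_snoc, hd_snoc_true, cc_snoc_true]
      have : (hd l + 1 = n + 1 ∧ true = true ∧ 3 ^ e ∣ 2 ^ (s + 1) * M + (2 * cc l + 3 ^ hd l)) ↔
          (hd l = n ∧ 3 ^ e ∣ 2 ^ s * M + cc l) := by
        constructor
        · rintro ⟨h1, -, h2⟩
          have h1' : hd l = n := by omega
          refine ⟨h1', ?_⟩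
          rw [h1', ← add_assoc] at h2
          have h3 : 3 ^ e ∣ 3 ^ n := pow_dvd_pow 3 he
          exact (sp_dvd e s M _).1 ((Nat.dvd_add_left h3).1 h2)
        · rintro ⟨h1, h2⟩
          refine ⟨by omega, rfl, ?_⟩
          rw [h1, ← add_assoc]
          have h3 : 3 ^ e ∣ 3 ^ n := pow_dvd_pow 3 he
          exact (Nat.dvd_add_left h3).2 ((sp_dvd e s M _).2 h2)
      exact if_congr this rfl rfl
    rw [a2, a3, zero_add]
  rw [h1, div_div, ← pow_succ]

theorem nu_conv (e n s M : ℕ) :
    nu e n s M = ∑ s' ∈ range (s + 1), ns e n s' M / 2 ^ (s - s') := by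
  induction s with
  | zero =>
    rw [zero_add, Finset.sum_range_one, Nat.sub_zero, pow_zero, div_one]
    unfold nu ns
    congr 2
    apply congrArg
    ext l
    simp only [mem_filter, mem_W, List.length_eq_zero_iff]
    constructor
    · rintro ⟨rfl, h1, h2⟩; exact ⟨rfl, h1, te_nil, h2⟩
    · rintro ⟨rfl, h1, -, h2⟩; exact ⟨rfl, h1, h2⟩
  | succ s ih =>
    rw [nu_succ, ih, Finset.sum_range_succ _ (s + 1), Nat.sub_self, pow_zero, div_one,
      Finset.sum_div]
    congr 1
    refine Finset.sum_congr rfl fun j hj => ?_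
    rw [mem_range] at hj
    rw [show s + 1 - j = (s - j) + 1 by omega, pow_succ, div_div]

theorem ns_conv_one (e n s M : ℕ) (he : e ≤ n) :
    ns e (n + 1) s M = ∑ s' ∈ range (s + 1), ns e n s' M * qs 1 (s - s') := by
  cases s with
  | zero =>
    rw [zero_add, Finset.sum_range_one]
    have h1 : qs 1 (0 - 0) = 0 := rfl
    rw [h1, mul_zero]
    unfold ns
    have : (W 0).filter (fun l => hd l = n + 1 ∧ te l = true ∧ 3 ^ e ∣ 2 ^ 0 * M + cc l) = ∅ := by
      rw [Finset.filter_eq_empty_iff]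
      rintro l hl ⟨h1, -⟩
      rw [mem_W] at hl
      have := hd_le l
      omega
    rw [this]
    simp
  | succ s =>
    rw [ns_succ_nu e n s M he, nu_conv, Finset.sum_range_succ _ (s + 1), Nat.sub_self]
    have h1 : qs 1 0 = 0 := rfl
    rw [h1, mul_zero, add_zero, Finset.sum_div]
    refine Finset.sum_congr rfl fun j hj => ?_
    rw [mem_range] at hj
    rw [show s + 1 - j = (s - j) + 1 by omega]
    have h2 : qs 1 (s - j + 1) = 1 / 2 ^ (s - j + 1) := by
      show ((s - j).choose 0 : ℝ) / 2 ^ (s - j + 1) = 1 / 2 ^ (s - j + 1)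
      rw [Nat.choose_zero_right, Nat.cast_one]
    rw [h2, pow_succ, div_div, mul_one_div]

theorem conv_coeff (f g : ℕ → ℝ) (s : ℕ) :
    PowerSeries.coeff s (PowerSeries.mk f * PowerSeries.mk g) =
      ∑ s' ∈ range (s + 1), f s' * g (s - s') := by
  rw [PowerSeries.coeff_mul]
  simp only [PowerSeries.coeff_mk]
  exact Finset.Nat.sum_antidiagonal_eq_sum_range_succ (fun i j => f i * g j) s

theorem hSp (hCv : StCv) (_hTr : StTr) : StSp := by
  intro e m n s M hem hmn
  have key : ∀ n, m ≤ n → PowerSeries.mk (fun s => ns e n s M) =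
      PowerSeries.mk (fun s => ns e m s M) * PowerSeries.mk (fun s => qs (n - m) s) := by
    intro n hmn
    induction n, hmn using Nat.le_induction with
    | base =>
      rw [Nat.sub_self]
      have h1 : PowerSeries.mk (fun s => qs 0 s) = 1 := by
        ext s
        rw [PowerSeries.coeff_mk, PowerSeries.coeff_one]
        cases s with
        | zero => simp [qs]
        | succ s => simp [qs]
      rw [h1, mul_one]
    | succ n hmn ih =>
      have h1 : PowerSeries.mk (fun s => ns e (n + 1) s M) =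
          PowerSeries.mk (fun s => ns e n s M) * PowerSeries.mk (fun s => qs 1 s) := by
        ext s
        rw [conv_coeff, PowerSeries.coeff_mk]
        exact ns_conv_one e n s M (hem.trans hmn)
      have h2 : PowerSeries.mk (fun s => qs (n + 1 - m) s) =
          PowerSeries.mk (fun s => qs (n - m) s) * PowerSeries.mk (fun s => qs 1 s) := by
        ext s
        rw [conv_coeff, PowerSeries.coeff_mk, show n + 1 - m = (n - m) + 1 by omega]
        exact hCv.2.1 (n - m) 1 s
      rw [h1, ih, h2, mul_assoc]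
  have h := congrArg (PowerSeries.coeff s) (key n hmn)
  rw [conv_coeff, PowerSeries.coeff_mk] at h
  exact h

end Pool.Agent.Helper17.ND
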