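import Pool.Agent.Helper76.ND.StE

/-!
# Module Te of project ND: telescoping
-/

set_option autoImplicit false

noncomputable section

namespace Pool.Agent.Helper17.ND

open Pool.Agent.Helper76.ND Finset

theorem q_pascal (T k : ℕ) : q (T + 1) (k + 1) = (q T k + q T (k + 1)) / 2 := by
  unfold q
  rw [Nat.choose_succ_succ, pow_succ]
  push_cast
  field_simp

theorem q_pascal0 (T : ℕ) : q (T + 1) 0 = q T 0 / 2 := by
  unfold q
  rw [Nat.choose_zero_right, Nat.choose_zero_right, pow_succ, div_div]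

theorem te_sum (T : ℕ) (F : ℕ → ℝ) :
    ∑ k ∈ range (T + 2), q (T + 1) k * F k =
      ∑ k ∈ range (T + 1), q T k * (F k / 2 + F (k + 1) / 2) := by
  have e1 : ∑ k ∈ range (T + 1), q T k * (F k / 2 + F (k + 1) / 2) =
      ∑ k ∈ range (T + 1), q T k * F k / 2 + ∑ k ∈ range (T + 1), q T k * F (k + 1) / 2 := by
    rw [← Finset.sum_add_distrib]
    exact Finset.sum_congr rfl fun k _ => by ring
  have hz : q T (T + 1) = 0 := by
    unfold q
    rw [Nat.choose_succ_self]
    simp
  have e2 : ∑ k ∈ range (T + 1), q T k * F k / 2 =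
      ∑ k ∈ range (T + 1), q T (k + 1) * F (k + 1) / 2 + q T 0 * F 0 / 2 := by
    rw [← Finset.sum_range_succ' (fun k => q T k * F k / 2) (T + 1),
      Finset.sum_range_succ _ (T + 1), hz]
    ring
  rw [Finset.sum_range_succ', e1, e2, q_pascal0]
  have e3 : ∑ k ∈ range (T + 1), q (T + 1) (k + 1) * F (k + 1) =
      ∑ k ∈ range (T + 1), q T (k + 1) * F (k + 1) / 2 +
      ∑ k ∈ range (T + 1), q T k * F (k + 1) / 2 := by
    rw [← Finset.sum_add_distrib]
    refine Finset.sum_congr rfl fun k _ => ?_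
    rw [q_pascal]
    ring
  rw [e3]
  ring

theorem hTe (hPo : StPo) : StTe := by
  intro T v hv
  induction T with
  | zero =>
    simp [q]
  | succ T ih =>
    rw [Finset.sum_range_succ, ih]
    have e1 : ∑ k ∈ range (T + 1), q T k * phi (2 ^ T * v / 3 ^ k) =
        ∑ k ∈ range (T + 1), q T k * (phi (2 ^ (T + 1) * v / 3 ^ k) / 2 +
          phi (2 ^ (T + 1) * v / 3 ^ (k + 1)) / 2) +
        ∑ k ∈ range (T + 1), q T k * ((2 ^ T * v / 3 ^ k) * gg (2 ^ T * v / 3 ^ k)) := by
      rw [← Finset.sum_add_distrib]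
      refine Finset.sum_congr rfl fun k _ => ?_
      have hw : 0 < 2 ^ T * v / 3 ^ k := by positivity
      have h1 := hPo.1 _ hw
      have a1 : 2 * (2 ^ T * v / 3 ^ k) = 2 ^ (T + 1) * v / 3 ^ k := by ring
      have a2 : 2 * (2 ^ T * v / 3 ^ k) / 3 = 2 ^ (T + 1) * v / 3 ^ (k + 1) := by
        rw [pow_succ 3 k, pow_succ 2 T]
        field_simp
      rw [a2, a1] at h1
      rw [h1]
      ring
    rw [e1, te_sum T (fun k => phi (2 ^ (T + 1) * v / 3 ^ k))]
    ring

end Pool.Agent.Helper17.ND
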