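import Pool.Agent.Helper76.ND.StD

/-!
# Module Tr of project ND: letters after the last head
-/

set_option autoImplicit false

noncomputable section

namespace Pool.Agent.Helper17.ND

open Pool.Agent.Helper76.ND Finset

theorem tr_dvd (k t M : ℕ) (l : List Bool) :
    3 ^ k ∣ 2 ^ (t + 1) * M + cc (l ++ [false]) ↔ 3 ^ k ∣ 2 ^ t * M + cc l := by
  have e : 2 ^ (t + 1) * M + cc (l ++ [false]) = 2 * (2 ^ t * M + cc l) := by
    rw [cc_append]
    simp only [List.length_singleton, cc_false, cc_nil, mul_zero, add_zero, pow_one]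
    ring
  rw [e]
  have hc : Nat.Coprime (3 ^ k) 2 := Nat.Coprime.pow_left k (by norm_num)
  exact hc.dvd_mul_left

theorem nt_succ (k t M : ℕ) : nt k (t + 1) M = nt k t M / 2 + ns k k (t + 1) M := by
  unfold nt ns
  have h1 : ((W (t + 1)).filter (fun l => hd l = k ∧ 3 ^ k ∣ 2 ^ (t + 1) * M + cc l)).card =
      ((W t).filter (fun l => hd l = k ∧ 3 ^ k ∣ 2 ^ t * M + cc l)).card +
      ((W (t + 1)).filter
        (fun l => hd l = k ∧ te l = true ∧ 3 ^ k ∣ 2 ^ (t + 1) * M + cc l)).card := by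
    rw [card_filter, card_filter, card_filter, sum_W_snoc, sum_W_snoc]
    have a1 : ∑ l ∈ W t, (if hd (l ++ [false]) = k ∧ 3 ^ k ∣ 2 ^ (t + 1) * M + cc (l ++ [false])
        then 1 else 0) =
        ∑ l ∈ W t, if hd l = k ∧ 3 ^ k ∣ 2 ^ t * M + cc l then 1 else 0 := by
      refine Finset.sum_congr rfl fun l _ => ?_
      simp only [tr_dvd, hd_append, hd_false, hd_nil, add_zero]
    have a2 : ∑ l ∈ W t, (if hd (l ++ [false]) = k ∧ te (l ++ [false]) = true ∧
        3 ^ k ∣ 2 ^ (t + 1) * M + cc (l ++ [false]) then 1 else 0) = 0 := by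
      refine Finset.sum_eq_zero fun l _ => ?_
      rw [if_neg]
      rintro ⟨-, h, -⟩
      rw [te_snoc] at h
      exact absurd h (by simp)
    have a3 : ∑ l ∈ W t, (if hd (l ++ [true]) = k ∧ te (l ++ [true]) = true ∧
        3 ^ k ∣ 2 ^ (t + 1) * M + cc (l ++ [true]) then 1 else 0) =
        ∑ l ∈ W t, if hd (l ++ [true]) = k ∧
        3 ^ k ∣ 2 ^ (t + 1) * M + cc (l ++ [true]) then 1 else 0 := by
      refine Finset.sum_congr rfl fun l _ => ?_
      rw [te_snoc]
      simp
    rw [a1, a2, a3, zero_add]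
  rw [h1, Nat.cast_add, add_div, div_div, ← pow_succ]

theorem q_succ (k t : ℕ) : q (t + 1) k = q t k / 2 + qs k (t + 1) := by
  cases k with
  | zero =>
    show ((t + 1).choose 0 : ℝ) / 2 ^ (t + 1) = (t.choose 0 : ℝ) / 2 ^ t / 2 + 0
    simp only [Nat.choose_zero_right]
    rw [pow_succ, add_zero]
    field_simp
  | succ k =>
    show ((t + 1).choose (k + 1) : ℝ) / 2 ^ (t + 1) =
      (t.choose (k + 1) : ℝ) / 2 ^ t / 2 + (t.choose k : ℝ) / 2 ^ (t + 1)
    rw [Nat.choose_succ_succ]
    push_cast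
    rw [pow_succ]
    field_simp
    ring

theorem conv_half (a : ℕ → ℝ) (t : ℕ) :
    ∑ s ∈ range (t + 1 + 1), a s / 2 ^ (t + 1 - s) =
      (∑ s ∈ range (t + 1), a s / 2 ^ (t - s)) / 2 + a (t + 1) := by
  rw [Finset.sum_range_succ, Nat.sub_self, pow_zero, div_one, Finset.sum_div]
  congr 1
  refine Finset.sum_congr rfl fun s hs => ?_
  rw [mem_range] at hs
  rw [show t + 1 - s = (t - s) + 1 by omega, pow_succ]
  field_simp

theorem hTr : StTr := by
  constructor
  · intro k t M
    induction t with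
    | zero =>
      rw [zero_add, Finset.sum_range_one, Nat.sub_zero, pow_zero, div_one]
      unfold nt ns
      congr 2
      apply congrArg
      ext l
      simp only [mem_filter, mem_W, List.length_eq_zero_iff]
      constructor
      · rintro ⟨rfl, h1, h2⟩; exact ⟨rfl, h1, te_nil, h2⟩
      · rintro ⟨rfl, h1, -, h2⟩; exact ⟨rfl, h1, h2⟩
    | succ t ih =>
      rw [nt_succ, conv_half (fun s => ns k k s M) t, ← ih]
  · intro k t
    induction t with
    | zero =>
      rw [zero_add, Finset.sum_range_one, Nat.sub_zero, pow_zero, div_one]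
      cases k with
      | zero => simp [q, qs]
      | succ k => simp [q, qs]
    | succ t ih =>
      rw [q_succ, conv_half (fun s => qs k s) t, ← ih]

end Pool.Agent.Helper17.ND
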